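import Mathlib
import Pool.Agent.V11299.Cov.Main

set_option autoImplicit false

namespace Pool.Agent.Results.MP_23c930_nt.BlockExists

/-- `x` is `n`-covered: it is divisible by a product `p q` of two distinct primes less than `n`,
or by `p ^ 2` for a prime `p < n / 2` (that is, `2 p < n`). -/
def NCovered (n x : ℕ) : Prop :=
  (∃ p q : ℕ, p.Prime ∧ q.Prime ∧ p ≠ q ∧ p < n ∧ q < n ∧ p * q ∣ x) ∨
    (∃ p : ℕ, p.Prime ∧ 2 * p < n ∧ p ^ 2 ∣ x)

/-- There are `n ≥ 1` and `m` such that all of `m + 1, ..., m + n` are `n`-covered;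
in fact `n = 60000` is possible. -/
theorem result : ∃ n m : ℕ, 1 ≤ n ∧ ∀ i : ℕ, 1 ≤ i → i ≤ n → NCovered n (m + i) := by
  obtain ⟨m, hm⟩ := V11299.Cov.main
  refine ⟨60000, m, by norm_num, fun i hi1 hi2 => ?_⟩
  have h := hm (i - 1) (by omega)
  have h1 : i - 1 + 1 = i := by omega
  unfold V11299.Cov.Cvd at h
  rw [h1] at h
  exact h

end Pool.Agent.Results.MP_23c930_nt.BlockExists
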